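import Pool.Agent.H36.RD.GeoA

/-!
# MP_609556_an, module ANG: directions of the ancestors (helper36)
-/

open MeasureTheory Set Filter Topology Metric

namespace Pool.Agent.H36.RD

open Pool.Agent.H91.RD

theorem sqrt_small {c C s : ℝ} (hc : 0 < c) (hC : 1 ≤ C) (hs : 0 ≤ s) (hs2 : 121 * C ^ 2 / c ^ 2 ≤ s) :
    11 * (C * √s) ≤ c * s := by
  have h1 : 11 * C / c ≤ √s := by
    apply Real.le_sqrt_of_sq_le
    calc (11 * C / c) ^ 2 = 121 * C ^ 2 / c ^ 2 := by ring
      _ ≤ s := hs2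
  rw [div_le_iff₀ hc] at h1
  have h2 : √s ^ 2 = s := Real.sq_sqrt hs
  have h3 : 0 ≤ √s := Real.sqrt_nonneg s
  calc 11 * (C * √s) = (11 * C) * √s := by ring
    _ ≤ (√s * c) * √s := mul_le_mul_of_nonneg_right h1 h3
    _ = c * √s ^ 2 := by ring
    _ = c * s := by rw [h2]

/-- one step of the chain of ancestors -/
theorem step (hDIR : T_DIR) {N : ℕ} {c C s σ : ℝ} (hc : 0 < c) (hC : 1 ≤ C) (hs : 1 ≤ s)
    (hs2 : 121 * C ^ 2 / c ^ 2 ≤ s) (h0 : 0 ≤ σ) (hσ : σ ≤ s) (a b : E N)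
    (ha1 : c * s - C * √s ≤ ‖a‖) (ha2 : ‖a‖ ≤ c * s + 5 * C * √s)
    (hb : ‖b‖ ≤ c * σ + C * (1 + √σ)) (hab : c * (s + σ) - C * √(s + σ) ≤ ‖a + b‖) :
    ‖‖a‖⁻¹ • a - ‖a + b‖⁻¹ • (a + b)‖ ≤ √(54 * C / c) * s ^ (-(1 / 4) : ℝ) := by
  have hs0 : 0 < s := by linarith
  have h11 := sqrt_small hc hC hs0.le hs2
  have hr1 : 1 ≤ √s := by rw [Real.one_le_sqrt]; exact hs
  have hrσ : √σ ≤ √s := Real.sqrt_le_sqrt hσ
  have hr2 : √(s + σ) ≤ 2 * √s := by
    have : √(s + σ) ≤ √(4 * s) := Real.sqrt_le_sqrt (by linarith)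
    rw [Real.sqrt_mul (by norm_num)] at this
    have h4 : √(4 : ℝ) = 2 := by
      rw [show (4 : ℝ) = 2 ^ 2 by norm_num, Real.sqrt_sq (by norm_num)]
    rwa [h4] at this
  have hCr : C ≤ C * √s := by nlinarith
  have hC0 : 0 ≤ C := by linarith
  have hCr2 : C * √(s + σ) ≤ 2 * (C * √s) := by
    have := mul_le_mul_of_nonneg_left hr2 hC0
    linarith
  have hCσ : C * √σ ≤ C * √s := mul_le_mul_of_nonneg_left hrσ hC0
  have hcσ : 0 ≤ c * σ := by positivity
  have hcs : 0 < c * s := by positivity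
  have hCs0 : 0 < C * √s := by positivity
  have ha0 : 0 < ‖a‖ := by linarith
  have hab0 : 0 < ‖a + b‖ := by nlinarith
  have h1 := hDIR N a b (9 * (C * √s)) (by positivity) (norm_pos_iff.mp ha0)
    (norm_pos_iff.mp hab0) (by nlinarith) (by nlinarith)
  apply le_of_sq_le_sq _ (by positivity)
  refine h1.trans ?_
  rw [mul_pow, Real.sq_sqrt (by positivity), ← Real.rpow_natCast (s ^ (-(1 / 4) : ℝ)) 2,
    ← Real.rpow_mul hs0.le]
  have e1 : s ^ ((-(1 / 4) : ℝ) * ((2 : ℕ) : ℝ)) = (√s)⁻¹ := by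
    rw [Real.sqrt_eq_rpow, ← Real.rpow_neg hs0.le]
    norm_num
  rw [e1, div_le_iff₀ ha0]
  have hsq : √s * √s = s := Real.mul_self_sqrt hs0.le
  have e2 : c * s / 2 ≤ ‖a‖ := by linarith
  have hsr0 : 0 < √s := by linarith
  calc 3 * (9 * (C * √s)) = 54 * C / c * (√s)⁻¹ * (c * (√s * √s) / 2) := by
        field_simp
        ring
    _ = 54 * C / c * (√s)⁻¹ * (c * s / 2) := by rw [hsq]
    _ ≤ 54 * C / c * (√s)⁻¹ * ‖a‖ := mul_le_mul_of_nonneg_left e2 (by positivity)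

/-- the chain of ancestors -/
theorem chain (hDIR : T_DIR) {N : ℕ} {c C t3 : ℝ} {U : Set (E N)} {I : ℝ → Set (E N)}
    (hG : Geo c C t3 U I) {t : ℝ} {x : E N}
    (hi : ∀ s', C ≤ s' → s' ≤ t - t3 → ∀ p ∈ I (t - s'), c * s' - C * √s' < dist p x) :
    ∀ n : ℕ, ∀ s, C ≤ s → 1 ≤ s → 121 * C ^ 2 / c ^ 2 ≤ s → s ≤ t - t3 → t - t3 ≤ 2 ^ n * s →
      ∀ z ∈ I (t - s), dist z x ≤ c * s + 5 * C * √s →
      ∃ p ∈ I t3, ‖x - p‖ ≤ c * (t - t3) + 7 * C * √(t - t3) ∧
        ‖‖x - z‖⁻¹ • (x - z) - ‖x - p‖⁻¹ • (x - p)‖ ≤ 7 * (√(54 * C / c) * s ^ (-(1 / 4) : ℝ)) := by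
  have hc := hG.c0
  have hC := hG.C0
  intro n
  induction n with
  | zero =>
    intro s hs1 hs2 hs3 hs4 hs5 z hz hzx
    have hst : s = t - t3 := by
      rw [pow_zero, one_mul] at hs5
      linarith
    refine ⟨z, ?_, ?_, ?_⟩
    · have : t - s = t3 := by rw [hst]; ring
      rw [← this]; exact hz
    · rw [← dist_eq_norm, dist_comm, ← hst]
      refine hzx.trans ?_
      have : 0 ≤ C * √s := by positivity
      linarith
    · rw [sub_self, norm_zero]
      positivity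
  | succ n ih =>
    intro s hs1 hs2 hs3 hs4 hs5 z hz hzx
    have hs0 : 0 < s := by linarith
    have hAs : 0 ≤ √(54 * C / c) * s ^ (-(1 / 4) : ℝ) := by positivity
    have ha1 : c * s - C * √s ≤ ‖x - z‖ := by
      rw [← dist_eq_norm, dist_comm]
      exact (hi s hs1 hs4 z hz).le
    have ha2 : ‖x - z‖ ≤ c * s + 5 * C * √s := by
      rw [← dist_eq_norm, dist_comm]
      exact hzx
    by_cases hcase : t - t3 ≤ 2 * s
    · -- last step
      obtain ⟨p, hp, hpz⟩ := hG.back t3 le_rfl (t - t3 - s) (by linarith) z (by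
        have : t3 + (t - t3 - s) = t - s := by ring
        rw [this]; exact hz)
      set σ := t - t3 - s with hσ
      have hb : ‖z - p‖ ≤ c * σ + C * (1 + √σ) := by
        rw [← dist_eq_norm, dist_comm]
        exact hpz
      have hsum : x - z + (z - p) = x - p := by abel
      have hab : c * (s + σ) - C * √(s + σ) ≤ ‖x - z + (z - p)‖ := by
        rw [hsum, ← dist_eq_norm, dist_comm]
        have e1 : s + σ = t - t3 := by rw [hσ]; ring
        rw [e1]
        refine (hi (t - t3) (by linarith) le_rfl p ?_).le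
        have : t - (t - t3) = t3 := by ring
        rw [this]; exact hp
      have h1 := step hDIR hc hC hs2 hs3 (by linarith : 0 ≤ σ) (by linarith) (x - z) (z - p) ha1 ha2
        hb hab
      rw [hsum] at h1
      refine ⟨p, hp, ?_, by linarith⟩
      have h2 : ‖x - p‖ ≤ ‖x - z‖ + ‖z - p‖ := by
        rw [← hsum]
        exact norm_add_le _ _
      have e1 : √s ≤ √(t - t3) := Real.sqrt_le_sqrt hs4
      have e2 : √σ ≤ √(t - t3) := Real.sqrt_le_sqrt (by linarith)
      have e3 : 1 ≤ √(t - t3) := by rw [Real.one_le_sqrt]; linarith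
      have hC0 : 0 ≤ C := by linarith
      have e4 := mul_le_mul_of_nonneg_left e1 hC0
      have e5 := mul_le_mul_of_nonneg_left e2 hC0
      have e6 := mul_le_mul_of_nonneg_left e3 hC0
      have e7 : c * s + c * σ = c * (t - t3) := by rw [hσ]; ring
      linarith
    · -- doubling
      push Not at hcase
      obtain ⟨z', hz', hzz⟩ := hG.back (t - 2 * s) (by linarith) s hs0.le z (by
        have : t - 2 * s + s = t - s := by ring
        rw [this]; exact hz)
      have hb : ‖z - z'‖ ≤ c * s + C * (1 + √s) := by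
        rw [← dist_eq_norm, dist_comm]
        exact hzz
      have hsum : x - z + (z - z') = x - z' := by abel
      have hab : c * (s + s) - C * √(s + s) ≤ ‖x - z + (z - z')‖ := by
        rw [hsum, ← dist_eq_norm, dist_comm]
        have e1 : s + s = 2 * s := by ring
        rw [e1]
        exact (hi (2 * s) (by linarith) hcase.le z' hz').le
      have h1 := step hDIR hc hC hs2 hs3 hs0.le le_rfl (x - z) (z - z') ha1 ha2 hb hab
      rw [hsum] at h1
      have hr1 : 1 ≤ √s := by rw [Real.one_le_sqrt]; exact hs2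
      have hr2 : 7 / 5 * √s ≤ √(2 * s) := by
        apply Real.le_sqrt_of_sq_le
        rw [mul_pow, Real.sq_sqrt hs0.le]
        linarith
      have hdist : dist z' x ≤ c * (2 * s) + 5 * C * √(2 * s) := by
        have e0 := dist_triangle z' z x
        have e1 : C ≤ C * √s := by nlinarith
        have e2 : 7 * (C * √s) ≤ 5 * (C * √(2 * s)) := by nlinarith
        linarith
      obtain ⟨p, hp, hp1, hp2⟩ := ih (2 * s) (by linarith) (by linarith) (by linarith) hcase.le (by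
        rw [pow_succ] at hs5; linarith) z' hz' hdist
      refine ⟨p, hp, hp1, ?_⟩
      have h2 := norm_sub_le_norm_sub_add_norm_sub (‖x - z‖⁻¹ • (x - z)) (‖x - z'‖⁻¹ • (x - z'))
        (‖x - p‖⁻¹ • (x - p))
      have h3 : (2 * s) ^ (-(1 / 4) : ℝ) ≤ 6 / 7 * s ^ (-(1 / 4) : ℝ) := by
        rw [Real.mul_rpow (by norm_num) hs0.le]
        apply mul_le_mul_of_nonneg_right _ (by positivity)
        have e1 : (2 : ℝ) ^ (-(1 / 4) : ℝ) = ((2 : ℝ)⁻¹) ^ (1 / 4 : ℝ) := by
          rw [Real.rpow_neg (by norm_num), Real.inv_rpow (by norm_num)]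
        rw [e1]
        have e2 : ((2 : ℝ)⁻¹) ≤ (6 / 7) ^ (4 : ℝ) := by
          rw [show (4 : ℝ) = ((4 : ℕ) : ℝ) by norm_num, Real.rpow_natCast]
          norm_num
        calc ((2 : ℝ)⁻¹) ^ (1 / 4 : ℝ) ≤ ((6 / 7) ^ (4 : ℝ)) ^ (1 / 4 : ℝ) :=
              Real.rpow_le_rpow (by norm_num) e2 (by norm_num)
          _ = 6 / 7 := by
              rw [← Real.rpow_mul (by norm_num)]
              norm_num
      have h4 := mul_le_mul_of_nonneg_left h3 (Real.sqrt_nonneg (54 * C / c))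
      linarith

theorem norm_unit_sub {N : ℕ} (v w : E N) (hv : v ≠ 0) (hw : w ≠ 0) :
    ‖‖v‖⁻¹ • v - ‖w‖⁻¹ • w‖ ≤ 2 * ‖v - w‖ / ‖w‖ := by
  have hv0 : 0 < ‖v‖ := norm_pos_iff.mpr hv
  have hw0 : 0 < ‖w‖ := norm_pos_iff.mpr hw
  rw [le_div_iff₀ hw0]
  have h1 : ‖w‖ • (‖v‖⁻¹ • v - ‖w‖⁻¹ • w) = (‖w‖ - ‖v‖) • (‖v‖⁻¹ • v) + (v - w) := by
    rw [smul_sub, smul_smul, smul_smul, mul_inv_cancel₀ hw0.ne', one_smul, sub_smul, smul_smul,
      smul_smul, mul_inv_cancel₀ hv0.ne', one_smul]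
    abel
  have h2 : ‖‖v‖⁻¹ • v - ‖w‖⁻¹ • w‖ * ‖w‖ = ‖‖w‖ • (‖v‖⁻¹ • v - ‖w‖⁻¹ • w)‖ := by
    rw [norm_smul, norm_norm, mul_comm]
  rw [h2, h1]
  refine (norm_add_le _ _).trans ?_
  rw [norm_smul, norm_smul, norm_inv, norm_norm, inv_mul_cancel₀ hv0.ne', mul_one,
    Real.norm_eq_abs]
  have h3 := abs_norm_sub_norm_le w v
  rw [norm_sub_rev] at h3
  linarith

theorem ang (hDIR : T_DIR) (hE1 : T_E1) : T_ANG := by
  intro N c C t3 U I hU hG
  have hc := hG.c0
  have hC := hG.C0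
  have ht3 := hG.t0
  have hA0 : 0 ≤ √(54 * C / c) := Real.sqrt_nonneg _
  have h121 : 0 ≤ 121 * C ^ 2 / c ^ 2 := by positivity
  refine ⟨7 * √(54 * C / c) + C + 121 * C ^ 2 / c ^ 2 + 1, by positivity, ?_⟩
  set Ca := 7 * √(54 * C / c) + C + 121 * C ^ 2 / c ^ 2 + 1 with hCa
  intro κ hκ
  obtain ⟨δ1, hδ1, R, hR0, hR⟩ := hE1 N U hU (κ / 4) (by positivity)
  set δ := min δ1 1 with hδ
  have hδ0 : 0 < δ := by positivity
  have hδa : δ ≤ δ1 := min_le_left _ _
  have hδb : δ ≤ 1 := min_le_right _ _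
  set B : ℝ := 12 * C / (δ * c) with hB
  have hB0 : 0 < B := by positivity
  refine ⟨t3 + 1 + B ^ 2 + 2 * (R + 4 * C / κ) / c + 121 * C ^ 2 / c ^ 2, by positivity, ?_⟩
  intro t ht x hx ξ e hD s hs1 hs2 z hz hzx
  have hi : ∀ s', C ≤ s' → s' ≤ t - t3 → ∀ p ∈ I (t - s'), c * s' - C * √s' < dist p x := by
    intro s' h1 h2 p hp
    by_contra hcon
    push Not at hcon
    have := hG.expd (t - s') (by linarith) s' h1 p hp x hcon
    rw [sub_add_cancel] at this
    exact hx this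
  obtain ⟨n, hn⟩ : ∃ n : ℕ, t - t3 ≤ 2 ^ n * s := by
    obtain ⟨n, hn⟩ := pow_unbounded_of_one_lt ((t - t3) / s) (by norm_num : (1 : ℝ) < 2)
    refine ⟨n, ?_⟩
    have hs0 : 0 < s := by linarith
    rw [div_lt_iff₀ hs0] at hn
    exact hn.le
  obtain ⟨p, hp, hp1, hp2⟩ := chain hDIR hG hi n s (by linarith) (by linarith) (by linarith) hs2 hn
    z hz hzx
  -- the direction of the last ancestor
  set τ := t - t3 with hτ
  have hp2' : 0 ≤ 2 * (R + 4 * C / κ) / c := by positivity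
  have hτ1 : 1 ≤ τ := by nlinarith [sq_nonneg B]
  have hτ0 : 0 < τ := by linarith
  have hrτ : √τ ^ 2 = τ := Real.sq_sqrt hτ0.le
  have hr1 : 1 ≤ √τ := by rw [Real.one_le_sqrt]; exact hτ1
  have hBτ : B ≤ √τ := by
    apply Real.le_sqrt_of_sq_le
    linarith
  have h12 : 12 * C * √τ ≤ δ * c * τ := by
    have h1 : 12 * C = B * (δ * c) := by
      rw [hB]; field_simp
    rw [h1]
    calc B * (δ * c) * √τ ≤ √τ * (δ * c) * √τ := by gcongr
      _ = δ * c * √τ ^ 2 := by ring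
      _ = δ * c * τ := by rw [hrτ]
  have h11 : 11 * (C * √τ) ≤ c * τ := sqrt_small hc hC hτ0.le (by nlinarith [sq_nonneg B])
  obtain ⟨y, hy, hpy⟩ := hG.down p hp
  set d := infDist x U with hd
  have hdlow : c * τ - C * √τ - C ≤ d := by
    rw [hd, le_infDist hG.Une]
    intro y' hy'
    obtain ⟨p', hp', hyp'⟩ := hG.up y' hy'
    have h1 := hi τ (by nlinarith [sq_nonneg B]) le_rfl p' (by
      have : t - τ = t3 := by rw [hτ]; ring
      rw [this]; exact hp')
    have h2 := dist_triangle p' y' x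
    rw [dist_comm p' y'] at h2
    rw [dist_comm x y']
    linarith
  have hCr : C ≤ C * √τ := by nlinarith
  have hdbig : R + 4 * C / κ ≤ d := by
    have h1 : 2 * (R + 4 * C / κ) / c ≤ τ := by
      nlinarith [sq_nonneg B]
    rw [div_le_iff₀ hc] at h1
    nlinarith
  have h4C : 0 < 4 * C / κ := by positivity
  have hd0 : 0 < d := by linarith
  have hxy : dist x y ≤ (1 + δ1) * d := by
    have h1 : dist x y ≤ ‖x - p‖ + C := by
      have := dist_triangle x p y
      rw [dist_eq_norm x p] at this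
      linarith
    have h2 : (1 + δ) * d ≤ (1 + δ1) * d := by nlinarith
    refine le_trans ?_ h2
    have h3 : (1 + δ) * (c * τ - C * √τ - C) ≤ (1 + δ) * d :=
      mul_le_mul_of_nonneg_left hdlow (by linarith)
    have h4 : δ * (C * √τ) ≤ C * √τ := by
      apply mul_le_of_le_one_left (by positivity) hδb
    have h5 : δ * C ≤ C := mul_le_of_le_one_left (by linarith) hδb
    nlinarith
  have hyξ := hR x ξ e hD (by linarith) y (subset_closure hy) hxy
  have hw : x - ξ ≠ 0 := by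
    intro h
    rw [hD.eq] at h
    have := congrArg norm h
    rw [norm_smul, hD.unit, mul_one, norm_zero, Real.norm_eq_abs, abs_of_pos hd0] at this
    linarith
  have hwn : ‖x - ξ‖ = d := by
    rw [hD.eq, norm_smul, hD.unit, mul_one, Real.norm_eq_abs, abs_of_pos hd0]
  have hv : x - p ≠ 0 := by
    intro h
    have h1 := hi τ (by nlinarith [sq_nonneg B]) le_rfl p (by
      have : t - τ = t3 := by rw [hτ]; ring
      rw [this]; exact hp)
    rw [dist_comm, dist_eq_norm, h, norm_zero] at h1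
    linarith
  have h1 := norm_unit_sub (x - p) (x - ξ) hv hw
  have h2 : ‖x - ξ‖⁻¹ • (x - ξ) = e := by
    rw [hwn, hD.eq, smul_smul, inv_mul_cancel₀ hd0.ne', one_smul]
  have h3 : ‖(x - p) - (x - ξ)‖ ≤ κ / 4 * d + C := by
    have : (x - p) - (x - ξ) = (y - p) + (ξ - y) := by abel
    rw [this]
    refine (norm_add_le _ _).trans ?_
    have e1 : ‖y - p‖ ≤ C := by rw [← dist_eq_norm, dist_comm]; exact hpy
    have e2 : ‖ξ - y‖ ≤ κ / 4 * d := by rw [norm_sub_rev]; exact hyξ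
    linarith
  rw [h2, hwn] at h1
  have h4 : 2 * ‖x - p - (x - ξ)‖ / d ≤ κ := by
    rw [div_le_iff₀ hd0]
    have h5 : 4 * C ≤ κ * d := by
      have : 4 * C / κ ≤ d := by linarith
      rw [div_le_iff₀ hκ] at this
      linarith
    nlinarith
  have h5 := norm_sub_le_norm_sub_add_norm_sub (‖x - z‖⁻¹ • (x - z)) (‖x - p‖⁻¹ • (x - p)) e
  have h6 : 7 * (√(54 * C / c) * s ^ (-(1 / 4) : ℝ)) ≤ Ca * s ^ (-(1 / 4) : ℝ) := by
    rw [← mul_assoc]
    apply mul_le_mul_of_nonneg_right _ (by have : 0 < s := by linarith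
                                           positivity)
    linarith
  linarith

end Pool.Agent.H36.RD
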