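import Pool.Agent.H36.RD.GeoA

/-!
# MP_609556_an, module EX: exit point (helper36)
-/

open MeasureTheory Set Filter Topology Metric

namespace Pool.Agent.H36.RD

open Pool.Agent.H91.RD

theorem ex : T_EX := by
  intro N c C t3 U I hU hG κ hκ
  have hc := hG.c0
  have hC := hG.C0
  have ht3 := hG.t0
  set ε : ℝ := κ / (4 * (c + κ / 2)) with hε
  have hε0 : 0 < ε := by positivity
  have hε1 : ε ≤ 1 / 2 := by
    rw [hε, div_le_iff₀ (by positivity)]
    linarith
  have hε2 : ε * (c + κ / 2) = κ / 4 := by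
    rw [hε]
    field_simp
  obtain ⟨R, hR0, hR⟩ := hU ε hε0
  refine ⟨min (κ / 2) (c / 2), by positivity,
    t3 + 1 + 2 * R / c + 200 * C ^ 2 / κ ^ 2, by positivity, ?_⟩
  intro t ht x hx hxd ξ e hD
  set δ := min (κ / 2) (c / 2) with hδ
  have hδa : δ ≤ κ / 2 := min_le_left _ _
  have hδb : δ ≤ c / 2 := min_le_right _ _
  have hp1 : 0 ≤ 2 * R / c := by positivity
  have hp2 : 0 ≤ 200 * C ^ 2 / κ ^ 2 := by positivity
  have ht1 : 1 ≤ t := by linarith
  have ht0 : 0 < t := by linarith
  have htt3 : t3 ≤ t := by linarith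
  set d := infDist x U with hd
  have hdR : R ≤ d := by
    have h1 : 2 * R / c ≤ t := by linarith
    rw [div_le_iff₀ hc] at h1
    nlinarith
  -- the far point is not in `I t`
  have hfar : x + (κ * t) • e ∉ I t := by
    intro hq
    obtain ⟨p, hp, hpq⟩ := hG.back t3 le_rfl (t - t3) (by linarith) (x + (κ * t) • e) (by
      rw [add_sub_cancel]; exact hq)
    obtain ⟨y, hy, hpy⟩ := hG.down p hp
    have h1 := condC_dir hR hD hdR y (subset_closure hy)
    set v := y - ξ with hv
    set D := d + κ * t with hDdef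
    have hD0 : 0 < D := by have := hD.pos; positivity
    have h2 : dist (x + (κ * t) • e) y = ‖D • e - v‖ := by
      rw [dist_eq_norm, hv, hDdef, add_smul, ← hD.eq]
      congr 1
      abel
    have h3 := dist_formula e v hD.unit D
    rw [← h2] at h3
    have h4 : (1 - ε) * D ≤ dist (x + (κ * t) • e) y := by
      apply le_of_sq_le_sq _ dist_nonneg
      rw [h3]
      have h5 : 2 * D * inner ℝ e v ≤ 2 * D * (ε * ‖v‖) :=
        mul_le_mul_of_nonneg_left h1 (by positivity)
      have h6 : 0 ≤ ε * D ^ 2 * (1 - ε) := by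
        apply mul_nonneg (by positivity); linarith
      nlinarith [sq_nonneg (‖v‖ - ε * D)]
    have h5 : (c + κ / 2) * t ≤ D := by rw [hDdef]; nlinarith
    have h6 : (c + κ / 4) * t ≤ (1 - ε) * D := by
      calc (c + κ / 4) * t = (1 - ε) * ((c + κ / 2) * t) := by
            have : (1 - ε) * ((c + κ / 2) * t) = ((c + κ / 2) - ε * (c + κ / 2)) * t := by ring
            rw [this, hε2]
            ring
        _ ≤ (1 - ε) * D := mul_le_mul_of_nonneg_left h5 (by linarith)
    have h7 : dist (x + (κ * t) • e) y ≤ c * t + C * (1 + √t) + C := by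
      have e1 := dist_triangle (x + (κ * t) • e) p y
      rw [dist_comm _ p] at e1
      have e2 : √(t - t3) ≤ √t := Real.sqrt_le_sqrt (by linarith)
      have e3 : c * (t - t3) ≤ c * t := by nlinarith
      have e4 : C * (1 + √(t - t3)) ≤ C * (1 + √t) := by
        apply mul_le_mul_of_nonneg_left _ (by linarith); linarith
      linarith
    have hs1 : 1 ≤ √t := by rw [Real.one_le_sqrt]; exact ht1
    have hsq : √t ^ 2 = t := Real.sq_sqrt ht0.le
    have h8 : κ / 4 * √t ≤ 3 * C := by
      have e1 : κ / 4 * t ≤ 3 * C * √t := by nlinarith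
      have : (κ / 4 * √t) * √t ≤ (3 * C) * √t := by
        calc _ = κ / 4 * √t ^ 2 := by ring
          _ = κ / 4 * t := by rw [hsq]
          _ ≤ _ := e1
      exact le_of_mul_le_mul_right this (by linarith)
    have h9 : 200 * C ^ 2 / κ ^ 2 < t := by linarith
    rw [div_lt_iff₀ (by positivity), ← hsq] at h9
    have h10 : (κ / 4 * √t) ^ 2 ≤ (3 * C) ^ 2 := pow_le_pow_left₀ (by positivity) h8 2
    nlinarith
  -- the exit point
  set F : Set ℝ := {r | 0 ≤ r ∧ r ≤ κ * t ∧ x + r • e ∉ I t} with hF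
  have hFne : F.Nonempty := ⟨κ * t, by positivity, le_rfl, hfar⟩
  have hFb : BddBelow F := ⟨0, fun r hr => hr.1⟩
  have hr0 : 0 ≤ sInf F := le_csInf hFne fun r hr => hr.1
  obtain ⟨r, hrF, hr⟩ : ∃ r ∈ F, r < sInf F + 1 / 2 := exists_lt_of_csInf_lt hFne (by linarith)
  have hr1 : sInf F ≤ r := csInf_le hFb hrF
  refine ⟨r, hrF.1, hrF.2.1, hrF.2.2, ?_⟩
  have hdist : ∀ r' : ℝ, dist (x + r • e) (x + r' • e) = |r - r'| := by
    intro r'
    rw [dist_eq_norm]
    have : x + r • e - (x + r' • e) = (r - r') • e := by rw [sub_smul]; abel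
    rw [this, norm_smul, hD.unit, mul_one, Real.norm_eq_abs]
  obtain ⟨r', hr'I, hr'⟩ : ∃ r', x + r' • e ∈ I t ∧ |r - r'| ≤ 1 := by
    by_cases h0 : sInf F - 1 / 4 ≤ 0
    · refine ⟨0, by simpa using hx, ?_⟩
      rw [sub_zero, abs_of_nonneg hrF.1]
      linarith
    · push Not at h0
      refine ⟨sInf F - 1 / 4, ?_, ?_⟩
      · by_contra hn
        have : sInf F - 1 / 4 ∈ F := ⟨h0.le, by linarith [hrF.2.1], hn⟩
        have := csInf_le hFb this
        linarith
      · rw [abs_of_nonneg (by linarith)]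
        linarith
  refine (infDist_le_dist_of_mem hr'I).trans ?_
  rw [hdist]
  exact hr'

end Pool.Agent.H36.RD
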