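import Pool.Agent.H36.RD.YC

/-!
# MP_609556_an, module EXTR: existence of the extremal speed (helper36)
-/

open MeasureTheory Set Filter Topology Metric

namespace Pool.Agent.H36.RD

open Pool.Agent.H91.RD

/-- minimum of a positive continuous function on a compact interval -/
theorem min_pos {y : ℝ → ℝ} {δ b : ℝ} (hδ : δ ≤ b) (hc : ContinuousOn y (Icc δ b))
    (hpos : ∀ τ ∈ Icc δ b, 0 < y τ) : ∃ m > 0, ∀ τ ∈ Icc δ b, m ≤ y τ := by
  obtain ⟨x, hx, hmin⟩ := isCompact_Icc.exists_isMinOn (nonempty_Icc.mpr hδ) hc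
  exact ⟨y x, hpos x hx, fun τ hτ => hmin hτ⟩

theorem extr (hY : T_YEX) (hC : T_YCMP) : T_EXTR := by
  intro f K b hf hb hb1 hfb ⟨b', hb'b, hb'0, hfpos⟩ hint
  have hK := hf.K0
  have hr : 0 < √(2 * K) := Real.sqrt_pos.mpr (by linarith)
  have hcmp := hC f K b hf hb hb1 hfb
  have hex : ∀ c : ℝ, 0 ≤ c → ∃ y, IsYb f b c y := fun c hc => hY f K b c hf hb hb1 hfb hc
  choose! Y hYb using hex
  set δ := (b - b') / 2 with hδ
  have hδ0 : 0 < δ := by rw [hδ]; linarith
  have hδb : δ ≤ b := by rw [hδ]; linarith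
  have hδ2 : δ < b - b' := by rw [hδ]; linarith
  -- positivity of a solution from its minimum on `[δ,b]`
  have hall : ∀ c, 0 ≤ c → ∀ y, IsYb f b c y → (∀ τ ∈ Icc δ b, 0 < y τ) →
      ∀ τ ∈ Ioc 0 b, 0 < y τ := by
    intro c _ y hy h τ hτ
    rcases le_total δ τ with h1 | h1
    · exact h τ ⟨h1, hτ.2⟩
    · exact pos_near hb'0 hfpos hy τ ⟨hτ.1, by linarith⟩
  -- speed zero
  have hY0 : ∀ τ ∈ Ioc 0 b, 0 < Y 0 τ := by
    intro τ hτ
    have h1 := ftc hf (hYb 0 le_rfl) le_rfl hτ.1.le hτ.2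
    rw [(hYb 0 le_rfl).1, sub_zero] at h1
    simp only [zero_mul, sub_zero] at h1
    rw [h1, intervalIntegral.integral_comp_sub_left (fun x => f x) b, sub_zero]
    exact hint (b - τ) ⟨by linarith [hτ.2], by linarith [hτ.1]⟩
  -- large speeds
  have hlarge : ∀ c, 0 ≤ c → 4 * K ≤ c ^ 2 → Y c b ≤ 0 := by
    intro c hc hcK
    obtain ⟨h0, hcy, hd⟩ := hYb c hc
    have h1 := le_zero_of (G := fun τ => Y c τ - (c / 2) ^ 2 * (b - τ) ^ 2 / 2) (a := 0) (b := b)
      (hcy.sub (by fun_prop)) (by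
        show Y c 0 - (c / 2) ^ 2 * (b - 0) ^ 2 / 2 ≤ 0
        rw [h0]
        have : 0 ≤ (c / 2) ^ 2 * (b - 0) ^ 2 / 2 := by positivity
        linarith) (by
        intro τ hτ hpos
        have h2 := hd τ hτ
        have h3 : HasDerivAt (fun τ : ℝ => (c / 2) ^ 2 * (b - τ) ^ 2 / 2)
            (-((c / 2) ^ 2 * (b - τ))) τ := by
          have h4 : HasDerivAt (fun τ : ℝ => b - τ) (-1) τ := by
            simpa using (hasDerivAt_id τ).const_sub b
          have h5 := ((h4.pow 2).const_mul ((c / 2) ^ 2)).div_const 2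
          refine h5.congr_deriv ?_
          simp
          ring
        refine ⟨_, h2.sub h3, ?_⟩
        have hbτ : 0 ≤ b - τ := by linarith [hτ.2]
        have hy0 : (c / 2 * (b - τ)) ^ 2 ≤ 2 * Y c τ := by
          have : (c / 2 * (b - τ)) ^ 2 = (c / 2) ^ 2 * (b - τ) ^ 2 := by ring
          rw [this]
          linarith
        have hsq : c / 2 * (b - τ) ≤ √(2 * max (Y c τ) 0) := by
          apply Real.le_sqrt_of_sq_le
          have := le_max_left (Y c τ) 0
          linarith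
        have hfle : f (b - τ) ≤ K * (b - τ) := by
          have := hf.lip (b - τ) 0
          rw [hf.f0, sub_zero, sub_zero, abs_of_nonneg hbτ] at this
          exact (le_abs_self _).trans this
        have h6 : c * (c / 2 * (b - τ)) ≤ c * √(2 * max (Y c τ) 0) :=
          mul_le_mul_of_nonneg_left hsq hc
        nlinarith) b ⟨hb.le, le_rfl⟩
    simpa using h1
  set P : Set ℝ := {c | 0 ≤ c ∧ ∀ τ ∈ Ioc 0 b, 0 < Y c τ} with hP
  have hP0 : (0 : ℝ) ∈ P := ⟨le_rfl, hY0⟩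
  have hPb : BddAbove P := by
    refine ⟨2 * K + 2, ?_⟩
    intro c hc
    by_contra hcon
    push Not at hcon
    have h1 := hlarge c hc.1 (by nlinarith)
    have h2 := hc.2 b ⟨hb, le_rfl⟩
    linarith
  set cs := sSup P with hcs
  have hcs0 : 0 ≤ cs := le_csSup hPb hP0
  -- adding a small amount to the speed
  have hadd : ∀ c, 0 ≤ c → ∀ m > 0, (∀ τ ∈ Icc δ b, m ≤ Y c τ) → c + m / (2 * √(2 * K)) ∈ P := by
    intro c hc m hm hmin
    have hm2 : 0 < m / (2 * √(2 * K)) := by positivity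
    have hc2 : 0 ≤ c + m / (2 * √(2 * K)) := by linarith
    refine ⟨hc2, hall _ hc2 _ (hYb _ hc2) ?_⟩
    intro τ hτ
    have h1 := (hcmp c (c + m / (2 * √(2 * K))) (Y c) (Y _) hc (by linarith) (hYb c hc)
      (hYb _ hc2) τ ⟨by linarith [hτ.1], hτ.2⟩).2
    have h2 : (c + m / (2 * √(2 * K)) - c) * √(2 * K) = m / 2 := by
      field_simp
      ring
    rw [h2] at h1
    have := hmin τ hτ
    linarith
  have hcspos : 0 < cs := by
    obtain ⟨m, hm, hmin⟩ := min_pos hδb ((hYb 0 le_rfl).2.1.mono (Icc_subset_Icc_left hδ0.le))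
      (fun τ hτ => hY0 τ ⟨by linarith [hτ.1], hτ.2⟩)
    have h1 := le_csSup hPb (hadd 0 le_rfl m hm hmin)
    have h2 : 0 < m / (2 * √(2 * K)) := by positivity
    linarith
  have hbelow : ∀ c', 0 ≤ c' → c' < cs → ∀ y', IsYb f b c' y' → ∀ τ ∈ Ioc 0 b, 0 < y' τ := by
    intro c' hc' hlt y' hy' τ hτ
    obtain ⟨c'', hc'', hlt'⟩ := exists_lt_of_lt_csSup ⟨0, hP0⟩ hlt
    have h1 := (hcmp c' c'' y' (Y c'') hc' hlt'.le hy' (hYb c'' hc''.1) τ ⟨hτ.1.le, hτ.2⟩).1
    have := hc''.2 τ hτ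
    linarith
  have hnn : ∀ τ ∈ Icc 0 b, 0 ≤ Y cs τ := by
    intro τ hτ
    rcases hτ.1.lt_or_eq with h | h
    · by_contra hcon
      push Not at hcon
      set v := Y cs τ with hv
      set ε := min cs (-v / (2 * √(2 * K))) with hε
      have hε0 : 0 < ε := by
        apply lt_min hcspos
        apply div_pos (by linarith) (by positivity)
      have hεc : ε ≤ cs := min_le_left _ _
      have hεv : ε * √(2 * K) ≤ -v / 2 := by
        calc ε * √(2 * K) ≤ -v / (2 * √(2 * K)) * √(2 * K) :=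
              mul_le_mul_of_nonneg_right (min_le_right _ _) hr.le
          _ = -v / 2 := by field_simp
      have h0 : 0 ≤ cs - ε := by linarith
      have h1 := hbelow (cs - ε) h0 (by linarith) (Y _) (hYb _ h0) τ ⟨h, hτ.2⟩
      have h2 := (hcmp (cs - ε) cs _ _ h0 (by linarith) (hYb _ h0) (hYb cs hcs0) τ hτ).2
      have h3 : (cs - (cs - ε)) * √(2 * K) = ε * √(2 * K) := by ring
      rw [h3] at h2
      linarith
    · rw [← h, (hYb cs hcs0).1]
  refine ⟨cs, Y cs, hcspos, hYb cs hcs0, hnn, ⟨b - b', by linarith, by linarith,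
    pos_near hb'0 hfpos (hYb cs hcs0)⟩, ?_, hbelow⟩
  by_contra hcon
  push Not at hcon
  obtain ⟨m, hm, hmin⟩ := min_pos hδb ((hYb cs hcs0).2.1.mono (Icc_subset_Icc_left hδ0.le))
    (fun τ hτ => lt_of_le_of_ne (hnn τ ⟨by linarith [hτ.1], hτ.2⟩)
      (Ne.symm (hcon τ ⟨by linarith [hτ.1], hτ.2⟩)))
  have h1 := le_csSup hPb (hadd cs hcs0 m hm hmin)
  have h2 : 0 < m / (2 * √(2 * K)) := by positivity
  linarith

end Pool.Agent.H36.RD
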