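import Pool.Agent.H36.RD.ANG

/-!
# MP_609556_an, module FL: everything behind an interface point is ignited (helper36)
-/

open MeasureTheory Set Filter Topology Metric

namespace Pool.Agent.H36.RD

open Pool.Agent.H91.RD

theorem rpow_quarter {A s ε : ℝ} (hA : 0 < A) (hε : 0 < ε) (hs : 0 < s) (h : (8 * A / ε) ^ 4 ≤ s) :
    A * s ^ (-(1 / 4) : ℝ) ≤ ε / 8 := by
  have hq : 0 < 8 * A / ε := by positivity
  have h1 : 8 * A / ε ≤ s ^ (1 / 4 : ℝ) := by
    have h2 := Real.rpow_le_rpow (by positivity) h (by norm_num : (0 : ℝ) ≤ 1 / 4)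
    rw [← Real.rpow_natCast (8 * A / ε) 4, ← Real.rpow_mul hq.le] at h2
    norm_num at h2
    simpa using h2
  have h3 : s ^ (-(1 / 4) : ℝ) = (s ^ (1 / 4 : ℝ))⁻¹ := by
    rw [← Real.rpow_neg hs.le]
  rw [h3]
  have h4 : 0 < s ^ (1 / 4 : ℝ) := Real.rpow_pos_of_pos hs _
  rw [← div_eq_mul_inv, div_le_iff₀ h4]
  rw [div_le_iff₀ hε] at h1
  linarith

theorem fl (hANG : T_ANG) : T_FL := by
  intro N c C t3 U I hU hG L hL ε hε
  have hc := hG.c0
  have hC := hG.C0
  have ht3 := hG.t0
  have hC0 : 0 < C := by linarith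
  obtain ⟨Ca, hCa, hCa'⟩ := hANG N c C t3 U I hU hG
  obtain ⟨T1, hT1, hang⟩ := hCa' (ε / 8) (by positivity)
  set M : ℝ := 4 / (c * ε) with hM
  have hM0 : 0 < M := by positivity
  set S0 : ℝ := Ca + C + (2 * C / c) ^ 2 + ((C + L + 1) / (4 * C)) ^ 2 + (8 * Ca / ε) ^ 4 with hS0
  have hS00 : 0 < S0 := by positivity
  refine ⟨S0 / M + 18 * C ^ 2 * M / ε, by positivity, 1 / (2 * M), by positivity, T1 + 2 * t3,
    by positivity, ?_⟩
  set Cε : ℝ := S0 / M + 18 * C ^ 2 * M / ε with hCε
  have hCε0 : 0 < Cε := by positivity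
  intro t ht x hx hxL ξ e hD y hy hyδ
  set r := ‖y‖ with hr
  have hr0 : 0 ≤ r := norm_nonneg _
  have hcs : -r ≤ inner ℝ y e := by
    have := abs_real_inner_le_norm y e
    rw [hD.unit, mul_one] at this
    exact (abs_le.mp this).1
  have hrC : Cε + ε * r ≤ r := by linarith
  have hεr : 0 ≤ ε * r := by positivity
  have hrpos : 0 < r := by linarith
  have hε1 : ε < 1 := by
    by_contra hcon
    push Not at hcon
    nlinarith
  set s : ℝ := M * r with hs
  have hS0s : S0 ≤ s := by
    have h1 : S0 / M ≤ r := by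
      have : 0 ≤ 18 * C ^ 2 * M / ε := by positivity
      linarith
    rw [div_le_iff₀ hM0] at h1
    linarith
  have hA4 : 0 ≤ (8 * Ca / ε) ^ 4 := by positivity
  have hA2 : 0 ≤ (2 * C / c) ^ 2 := by positivity
  have hA3 : 0 ≤ ((C + L + 1) / (4 * C)) ^ 2 := by positivity
  have hs0 : 0 < s := by positivity
  have hsCa : Ca ≤ s := by linarith
  have hsC : C ≤ s := by linarith
  have hst : s ≤ t - t3 := by
    have h1 : M * r ≤ t / 2 := by
      calc M * r ≤ M * (1 / (2 * M) * t) := by gcongr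
        _ = t / 2 := by field_simp
    linarith
  -- the approximating point
  have hne : (I t).Nonempty := hG.ne t (by linarith)
  obtain ⟨x', hx', hxx'⟩ := (infDist_lt_iff hne).mp (lt_of_le_of_lt hxL (by linarith : L < L + 1))
  obtain ⟨z, hz, hzx'⟩ := hG.back (t - s) (by linarith) s hs0.le x' (by
    rw [sub_add_cancel]; exact hx')
  have hrs : 0 < √s := Real.sqrt_pos.mpr hs0
  have hq1 : C + L + 1 ≤ 4 * C * √s := by
    have h1 : (C + L + 1) / (4 * C) ≤ √s := Real.le_sqrt_of_sq_le (by linarith)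
    rw [div_le_iff₀ (by positivity)] at h1
    linarith
  have hq2 : 2 * C ≤ c * √s := by
    have h1 : 2 * C / c ≤ √s := Real.le_sqrt_of_sq_le (by linarith)
    rw [div_le_iff₀ hc] at h1
    linarith
  have hrss : √s * √s = s := Real.mul_self_sqrt hs0.le
  have hzx : dist z x ≤ c * s + 5 * C * √s := by
    have h1 := dist_triangle z x' x
    rw [dist_comm x' x] at h1
    linarith
  have hzlow : c * s - C * √s < dist z x := by
    by_contra hcon
    push Not at hcon
    have := hG.expd (t - s) (by linarith) s hsC z hz x hcon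
    rw [sub_add_cancel] at this
    exact hx this
  have hquart := rpow_quarter hCa hε hs0 (by linarith : (8 * Ca / ε) ^ 4 ≤ s)
  have hdir := hang t (by linarith) x hx ξ e hD s hsCa hst z hz hzx
  set l := ‖x - z‖ with hl
  have hlz : dist z x = l := by rw [dist_comm, dist_eq_norm]
  rw [hlz] at hzx hzlow
  have hcs2 : c * s / 2 ≤ l := by
    have h1 : 2 * (C * √s) ≤ c * s := by
      calc 2 * (C * √s) = (2 * C) * √s := by ring
        _ ≤ (c * √s) * √s := by gcongr
        _ = c * s := by rw [mul_assoc, hrss]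
    linarith
  have hcM : c * s / 2 = 2 * r / ε := by
    rw [hs, hM]
    field_simp
    ring
  have hl2 : 2 * r ≤ l * ε := by
    rw [hcM, div_le_iff₀ hε] at hcs2
    exact hcs2
  have hl0 : 0 < l := by
    by_contra hcon
    push Not at hcon
    nlinarith
  -- the inner product
  set ê := l⁻¹ • (x - z) with hê
  have hin : inner ℝ y ê ≤ -(3 / 4 * (ε * r)) - Cε := by
    have h1 : inner ℝ y ê = inner ℝ y e + inner ℝ y (ê - e) := by
      rw [inner_sub_right]; ring
    have h2 : inner ℝ y (ê - e) ≤ r * (ε / 4) := by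
      refine (real_inner_le_norm _ _).trans ?_
      gcongr
      linarith
    rw [h1]
    linarith
  have hxz : x - z = l • ê := by
    rw [hê, smul_smul, mul_inv_cancel₀ hl0.ne', one_smul]
  have hsq : ‖x + y - z‖ ^ 2 ≤ (l - ε * r / 2 - Cε) ^ 2 := by
    have h1 : x + y - z = (x - z) + y := by abel
    rw [h1, norm_add_sq_real, ← hl, ← hr]
    have h2 : inner ℝ (x - z) y = l * inner ℝ y ê := by
      conv_lhs => rw [hxz]
      rw [inner_smul_left, real_inner_comm]
      simp
    rw [h2]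
    have h3 : l * inner ℝ y ê ≤ l * (-(3 / 4 * (ε * r)) - Cε) := by gcongr
    have h4 : r ^ 2 ≤ l * ε * r / 2 := by nlinarith
    nlinarith [sq_nonneg (ε * r / 2 + Cε)]
  have hpos : 0 ≤ l - ε * r / 2 - Cε := by
    nlinarith
  have hfin : ‖x + y - z‖ ≤ l - ε * r / 2 - Cε := by
    exact abs_le_of_sq_le_sq' hsq hpos |>.2
  have hkey : 6 * C * √s ≤ ε * r / 2 + Cε := by
    have h1 : 18 * C ^ 2 * M / ε ≤ Cε := by
      have : 0 ≤ S0 / M := by positivity
      linarith
    refine le_trans ?_ (add_le_add_right h1 _)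
    apply le_of_sq_le_sq _ (by positivity)
    have h2 : (6 * C * √s) ^ 2 = 36 * C ^ 2 * (M * r) := by
      rw [mul_pow, sq (√s), hrss]
      ring
    rw [h2]
    have h3 : (ε * r / 2) * (18 * C ^ 2 * M / ε) = 9 * C ^ 2 * (M * r) := by
      field_simp
      ring
    nlinarith [sq_nonneg (ε * r / 2 - 18 * C ^ 2 * M / ε)]
  have hd : dist z (x + y) ≤ c * s - C * √s := by
    rw [dist_comm, dist_eq_norm]
    linarith
  have := hG.expd (t - s) (by linarith) s hsC z hz (x + y) hd
  rwa [sub_add_cancel] at this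

end Pool.Agent.H36.RD
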