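import Pool.Agent.H36.RD.YC

/-!
# MP_609556_an, modules FZ, SPD (helper36)
-/

open MeasureTheory Set Filter Topology Metric

namespace Pool.Agent.H36.RD

open Pool.Agent.H91.RD

theorem fz (hY : T_YEX) (hC : T_YCMP) : T_FZ := by
  intro f K b c y hf hb hb1 hfb hE
  have hK := hf.K0
  have hr : 0 < √(2 * K) := Real.sqrt_pos.mpr (by linarith)
  have hc := hE.cpos
  obtain ⟨h0, hcy, hd⟩ := hE.isy
  obtain ⟨δ, hδ, hδb, hnear⟩ := hE.near
  obtain ⟨τz, hτz, hyz⟩ := hE.zero
  have hδz : δ ≤ τz := by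
    by_contra hcon
    push Not at hcon
    have := hnear τz ⟨hτz.1, hcon⟩
    linarith
  set Z := {τ ∈ Icc δ b | y τ = 0} with hZ
  have hclosed : IsClosed Z :=
    (hcy.mono (Icc_subset_Icc_left hδ.le)).preimage_isClosed_of_isClosed isClosed_Icc
      (isClosed_singleton (x := (0 : ℝ)))
  have hcomp : IsCompact Z := isCompact_Icc.of_isClosed_subset hclosed (fun x hx => hx.1)
  have hne : Z.Nonempty := ⟨τz, ⟨hδz, hτz.2⟩, hyz⟩
  have hmem := hcomp.sInf_mem hne
  set t1 := sInf Z with ht1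
  obtain ⟨⟨ht1δ, ht1b⟩, hyt1⟩ := hmem
  have hpos : ∀ τ ∈ Ioo 0 t1, 0 < y τ := by
    intro τ hτ
    rcases lt_or_ge τ δ with h | h
    · exact hnear τ ⟨hτ.1, h⟩
    · apply lt_of_le_of_ne (hE.nonneg τ ⟨hτ.1.le, by linarith [hτ.2]⟩)
      intro h1
      have : t1 ≤ τ := csInf_le hcomp.bddBelow ⟨⟨h, by linarith [hτ.2]⟩, h1.symm⟩
      linarith [hτ.2]
  have hbt : b - (b - t1) = t1 := by ring
  refine ⟨b - t1, by linarith, by linarith, by rw [hbt]; exact hpos, by rw [hbt]; exact hyt1, ?_, ?_⟩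
  · rcases ht1b.lt_or_eq with h | h
    · have hmin : IsLocalMin y t1 := by
        filter_upwards [isOpen_Ioo.mem_nhds (show t1 ∈ Ioo 0 b from ⟨by linarith, h⟩)] with τ hτ
        rw [hyt1]
        exact hE.nonneg τ ⟨hτ.1.le, hτ.2.le⟩
      have h1 := hmin.hasDerivAt_eq_zero (hd t1 ⟨by linarith, h⟩)
      rw [hyt1] at h1
      simpa using h1
    · rw [h, sub_self]
      exact hf.f0
  · intro s hs
    by_contra hcon
    push Not at hcon
    set ts := b - s with hts
    have hts1 : t1 < ts := by rw [hts]; linarith [hs.2]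
    have htsb : ts ≤ b := by rw [hts]; linarith [hs.1]
    have hcts : ContinuousOn y (Icc t1 ts) := hcy.mono (Icc_subset_Icc (by linarith) htsb)
    have hsq : ContinuousOn (fun τ => √(2 * max (y τ) 0)) (Icc t1 ts) := by
      apply Real.continuous_sqrt.comp_continuousOn
      apply ContinuousOn.mul continuousOn_const
      exact hcts.sup continuousOn_const
    have h1 := ftc hf hE.isy (by linarith : (0 : ℝ) ≤ t1) hts1.le htsb
    rw [intervalIntegral.integral_sub, intervalIntegral.integral_const_mul,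
      intervalIntegral.integral_comp_sub_left (fun x => f x) b, hyt1, sub_zero] at h1
    rotate_left
    · exact ((lip_cont hf).comp (by fun_prop : Continuous fun τ : ℝ => b - τ)).intervalIntegrable _ _
    · apply ContinuousOn.intervalIntegrable
      rw [uIcc_of_le hts1.le]
      exact continuousOn_const.mul hsq
    have hbts : b - ts = s := by rw [hts]; ring
    rw [hbts] at h1
    have hI0 : 0 ≤ ∫ τ in t1..ts, √(2 * max (y τ) 0) :=
      intervalIntegral.integral_nonneg hts1.le (fun τ _ => Real.sqrt_nonneg _)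
    have hyts : 0 ≤ y ts := hE.nonneg ts ⟨by linarith, htsb⟩
    have hcI : 0 ≤ c * ∫ τ in t1..ts, √(2 * max (y τ) 0) := mul_nonneg hc.le hI0
    have hIz : c * ∫ τ in t1..ts, √(2 * max (y τ) 0) = 0 := by linarith
    have hI : ∫ τ in t1..ts, √(2 * max (y τ) 0) = 0 := by
      rcases mul_eq_zero.mp hIz with h | h
      · exact absurd h hc.ne'
      · exact h
    have hyz : ∀ τ ∈ Icc t1 ts, y τ = 0 := by
      intro τ hτ
      by_contra hne0
      have hyp : 0 < y τ := lt_of_le_of_ne
        (hE.nonneg τ ⟨by linarith [hτ.1], by linarith [hτ.2]⟩) (Ne.symm hne0)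
      have := intervalIntegral.integral_pos hts1 hsq (fun x _ => Real.sqrt_nonneg _)
        ⟨τ, hτ, Real.sqrt_pos.mpr (by
          have := le_max_left (y τ) 0
          linarith)⟩
      linarith
    have hfz : ∀ τ ∈ Ioo t1 ts, f (b - τ) = 0 := by
      intro τ hτ
      have h2 := hd τ ⟨by linarith [hτ.1], by linarith [hτ.2]⟩
      have h3 : HasDerivAt y 0 τ := by
        apply (hasDerivAt_const τ (0 : ℝ)).congr_of_eventuallyEq
        filter_upwards [isOpen_Ioo.mem_nhds hτ] with x hx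
        exact hyz x ⟨hx.1.le, hx.2.le⟩
      have h4 := h2.unique h3
      rw [hyz τ ⟨hτ.1.le, hτ.2.le⟩] at h4
      simpa using h4
    -- a slightly smaller speed
    set q := (c / 2) ^ 2 * (ts - t1) ^ 2 with hq
    have hq0 : 0 < q := by
      have : 0 < ts - t1 := by linarith
      positivity
    set ε := min (c / 2) (q / (4 * √(2 * K))) with hε
    have hε0 : 0 < ε := by
      apply lt_min (by linarith) (by positivity)
    have hε1 : ε ≤ c / 2 := min_le_left _ _
    have hε2 : ε * √(2 * K) ≤ q / 4 := by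
      calc ε * √(2 * K) ≤ q / (4 * √(2 * K)) * √(2 * K) :=
            mul_le_mul_of_nonneg_right (min_le_right _ _) hr.le
        _ = q / 4 := by field_simp
    have hc' : 0 ≤ c - ε := by linarith
    obtain ⟨y', hy'⟩ := hY f K b (c - ε) hf hb hb1 hfb hc'
    have hpos' := hE.below (c - ε) hc' (by linarith) y' hy'
    have hy2 := hy'
    obtain ⟨_, hcy', hd'⟩ := hy'
    have hp : √(2 * y' ts) - √(2 * y' t1) = ∫ τ in t1..ts, (-(c - ε)) := by
      symm
      apply intervalIntegral.integral_eq_sub_of_hasDerivAt_of_le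
        (f := fun τ => √(2 * y' τ)) hts1.le
      · apply Real.continuous_sqrt.comp_continuousOn
        apply ContinuousOn.mul continuousOn_const
        exact hcy'.mono (Icc_subset_Icc (by linarith) htsb)
      · intro τ hτ
        have hyp := hpos' τ ⟨by linarith [hτ.1], by linarith [hτ.2]⟩
        have h2 := (hd' τ ⟨by linarith [hτ.1], by linarith [hτ.2]⟩).const_mul 2
        have h3 := h2.sqrt (by positivity)
        refine h3.congr_deriv ?_
        rw [hfz τ hτ, max_eq_left hyp.le]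
        have h4 : 0 < √(2 * y' τ) := Real.sqrt_pos.mpr (by linarith)
        field_simp
        ring
      · exact intervalIntegrable_const
    rw [intervalIntegral.integral_const, smul_eq_mul] at hp
    have hp1 : c / 2 * (ts - t1) ≤ √(2 * y' t1) := by
      have h2 : 0 ≤ √(2 * y' ts) := Real.sqrt_nonneg _
      have h3 : c / 2 * (ts - t1) ≤ (c - ε) * (ts - t1) :=
        mul_le_mul_of_nonneg_right (by linarith) (by linarith)
      nlinarith
    have hyp1 := hpos' t1 ⟨by linarith, ht1b⟩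
    have hp2 : q ≤ 2 * y' t1 := by
      have h2 : (c / 2 * (ts - t1)) ^ 2 ≤ √(2 * y' t1) ^ 2 := by
        apply pow_le_pow_left₀ _ hp1
        apply mul_nonneg (by linarith) (by linarith)
      rw [Real.sq_sqrt (by linarith)] at h2
      rw [hq]
      linarith [show (c / 2 * (ts - t1)) ^ 2 = (c / 2) ^ 2 * (ts - t1) ^ 2 by ring]
    have h5 := (hC f K b hf hb hb1 hfb (c - ε) c y' y hc' (by linarith) hy2 hE.isy t1
      ⟨by linarith, ht1b⟩).2
    rw [hyt1, sub_zero] at h5
    have h6 : (c - (c - ε)) * √(2 * K) = ε * √(2 * K) := by ring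
    rw [h6] at h5
    linarith

theorem spd (hY : T_YEX) (hC : T_YCMP) : T_SPD := by
  intro f K b β c y hf hβ hβb hb1 hfb hfβ ⟨b', hb'β, hb'0, hfpos⟩ hE hypos hyz c1 y1 hE1
  by_contra hcon
  push Not at hcon
  have hK := hf.K0
  have hr : 0 < √(2 * K) := Real.sqrt_pos.mpr (by linarith)
  have hb : 0 < b := by linarith
  have hc := hE.cpos
  have hc1 := hE1.cpos
  have shift : ∀ (c : ℝ) (y : ℝ → ℝ), IsYb f b c y →
      ContinuousOn (fun τ => y (b - β + τ)) (Icc 0 β) ∧
      ∀ τ ∈ Ioo 0 β, HasDerivAt (fun τ => y (b - β + τ))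
        (f (β - τ) - c * √(2 * max (y (b - β + τ)) 0)) τ := by
    intro c y hy
    obtain ⟨_, hcy, hd⟩ := hy
    constructor
    · apply hcy.comp (by fun_prop)
      intro τ hτ
      exact ⟨by linarith [hτ.1], by linarith [hτ.2]⟩
    · intro τ hτ
      have h1 := hd (b - β + τ) ⟨by linarith [hτ.1], by linarith [hτ.2]⟩
      have h2 := h1.comp_const_add (b - β) τ
      rw [show b - (b - β + τ) = β - τ by ring] at h2
      exact h2
  have hW : IsYb f β c (fun τ => y (b - β + τ)) := by
    refine ⟨by simpa using hyz, (shift c y hE.isy).1, (shift c y hE.isy).2⟩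
  have hcmp := hC f K β hf hβ (by linarith) hfβ c1 c y1 _ hc1.le hcon.le hE1.isy hW
  set δ := β - b' with hδ
  have hδ0 : 0 < δ := by rw [hδ]; linarith
  have hWpos := pos_near hb'0 hfpos hW
  have hy1pos := pos_near hb'0 hfpos hE1.isy
  set t0 := δ / 2 with ht0
  have ht0m : t0 ∈ Ioo 0 (β - b') := ⟨by rw [ht0]; linarith, by rw [ht0]; linarith⟩
  have ht0β : t0 < β := by linarith [ht0m.2]
  have hlt : y (b - β + t0) < y1 t0 := by
    apply lt_of_le_of_ne (hcmp t0 ⟨ht0m.1.le, ht0β.le⟩).1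
    intro heq
    have hmin : IsLocalMin (fun τ => y1 τ - y (b - β + τ)) t0 := by
      filter_upwards [isOpen_Ioo.mem_nhds (show t0 ∈ Ioo 0 β from ⟨ht0m.1, ht0β⟩)] with τ hτ
      have := (hcmp τ ⟨hτ.1.le, hτ.2.le⟩).1
      show y1 t0 - y (b - β + t0) ≤ y1 τ - y (b - β + τ)
      linarith
    have h1 := hmin.hasDerivAt_eq_zero ((hE1.isy.2.2 t0 ⟨ht0m.1, ht0β⟩).sub
      (hW.2.2 t0 ⟨ht0m.1, ht0β⟩))
    have h2 : 0 < √(2 * max (y1 t0) 0) := by
      apply Real.sqrt_pos.mpr
      have := hy1pos t0 ht0m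
      have := le_max_left (y1 t0) 0
      linarith
    simp only [heq] at h1
    have h3 : 0 < (c - c1) * √(2 * max (y1 t0) 0) := mul_pos (by linarith) h2
    linarith
  obtain ⟨tz, htz, hy1z⟩ := hE1.zero
  have htz0 : t0 < tz := by
    by_contra h
    push Not at h
    have := hy1pos tz ⟨htz.1, by linarith [ht0m.2]⟩
    linarith
  set g := y1 t0 - y (b - β + t0) with hg
  have hg0 : 0 < g := by rw [hg]; linarith
  set c2 := max ((c1 + c) / 2) (c - g / (2 * √(2 * K))) with hc2
  have hg2 : 0 < g / (2 * √(2 * K)) := by positivity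
  have hc2c : c2 < c := max_lt (by linarith) (by linarith)
  have hc2c1 : c1 < c2 := lt_of_lt_of_le (by linarith) (le_max_left _ _)
  have hc20 : 0 ≤ c2 := by linarith
  have hc2e : (c - c2) * √(2 * K) ≤ g / 2 := by
    have h1 : c - c2 ≤ g / (2 * √(2 * K)) := by
      have := le_max_right ((c1 + c) / 2) (c - g / (2 * √(2 * K)))
      linarith
    calc (c - c2) * √(2 * K) ≤ g / (2 * √(2 * K)) * √(2 * K) :=
          mul_le_mul_of_nonneg_right h1 hr.le
      _ = g / 2 := by field_simp
  obtain ⟨Y, hYs⟩ := hY f K b c2 hf hb hb1 hfb hc20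
  have hYpos := hE.below c2 hc20 hc2c Y hYs
  have hV := shift c2 Y hYs
  have h1 := (hC f K b hf hb hb1 hfb c2 c Y y hc20 hc2c.le hYs hE.isy (b - β + t0)
    ⟨by linarith [ht0m.1], by linarith⟩).2
  have h2 := le_zero_of (G := fun τ => Y (b - β + τ) - y1 τ) (a := t0) (b := tz)
    (by
      apply ContinuousOn.sub
      · exact hV.1.mono (Icc_subset_Icc ht0m.1.le htz.2)
      · exact hE1.isy.2.1.mono (Icc_subset_Icc ht0m.1.le htz.2))
    (by
      show Y (b - β + t0) - y1 t0 ≤ 0
      linarith)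
    (by
      intro τ hτ hpos
      have hτβ : τ ∈ Ioo 0 β := ⟨by linarith [hτ.1, ht0m.1], by linarith [hτ.2, htz.2]⟩
      refine ⟨_, (hV.2 τ hτβ).sub (hE1.isy.2.2 τ hτβ), ?_⟩
      have h3 : √(2 * max (y1 τ) 0) ≤ √(2 * max (Y (b - β + τ)) 0) := by
        apply Real.sqrt_le_sqrt
        have : max (y1 τ) 0 ≤ max (Y (b - β + τ)) 0 := max_le_max_right _ (by linarith)
        linarith
      have h4 : 0 ≤ √(2 * max (y1 τ) 0) := Real.sqrt_nonneg _
      have h5 : c1 * √(2 * max (y1 τ) 0) ≤ c2 * √(2 * max (Y (b - β + τ)) 0) :=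
        mul_le_mul hc2c1.le h3 h4 hc20
      linarith) tz ⟨htz0.le, le_rfl⟩
  have h3 := hYpos (b - β + tz) ⟨by linarith [htz.1], by linarith [htz.2]⟩
  have h4 : Y (b - β + tz) - y1 tz ≤ 0 := h2
  linarith

end Pool.Agent.H36.RD
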