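import Pool.Agent.H91.RD.Targets

/-!
# MP_609556_an, modules E0, DIR, E1, E2 (helper36)
-/

open MeasureTheory Set Filter Topology Metric

namespace Pool.Agent.H36.RD

open Pool.Agent.H91.RD

theorem e0 : T_E0 := by
  intro N U x hx
  have hne : U.Nonempty := by
    by_contra h
    rw [Set.not_nonempty_iff_eq_empty] at h
    rw [h, infDist_empty] at hx
    exact lt_irrefl _ hx
  obtain ⟨ξ, hξ, h⟩ := isClosed_closure.exists_infDist_eq_dist hne.closure x
  rw [infDist_closure] at h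
  refine ⟨ξ, (infDist x U)⁻¹ • (x - ξ), hξ, h.symm, hx, ?_, ?_⟩
  · rw [norm_smul, norm_inv, Real.norm_eq_abs, abs_of_pos hx, ← dist_eq_norm, ← h,
      inv_mul_cancel₀ hx.ne']
  · rw [smul_smul, mul_inv_cancel₀ hx.ne', one_smul]

theorem dir : T_DIR := by
  intro N a b ω hω ha hab h1 h2
  set A := ‖a‖ with hA
  set S := ‖a + b‖ with hS
  have hA0 : 0 < A := norm_pos_iff.mpr ha
  have hS0 : 0 < S := norm_pos_iff.mpr hab
  have hB0 : 0 ≤ ‖b‖ := norm_nonneg b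
  have e1 : ‖b‖ ^ 2 = S ^ 2 - 2 * inner ℝ a (a + b) + A ^ 2 := by
    have : b = (a + b) - a := by abel
    conv_lhs => rw [this]
    rw [norm_sub_sq_real, real_inner_comm]
  have e2 : ‖A⁻¹ • a - S⁻¹ • (a + b)‖ ^ 2 = 2 - 2 * (inner ℝ a (a + b) / (A * S)) := by
    rw [norm_sub_sq_real, norm_smul, norm_smul, norm_inv, norm_inv, Real.norm_eq_abs,
      Real.norm_eq_abs, abs_of_pos hA0, abs_of_pos hS0, ← hA, ← hS, inv_mul_cancel₀ hA0.ne',
      inv_mul_cancel₀ hS0.ne', real_inner_smul_left, real_inner_smul_right]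
    field_simp
    ring
  rw [e2]
  have e3 : 2 * (A * S - inner ℝ a (a + b)) ≤ 3 * ω * S := by
    have h3 : ‖b‖ ≤ (S - A) + ω := by linarith
    have h4 : ‖b‖ ^ 2 ≤ ((S - A) + ω) ^ 2 := pow_le_pow_left₀ hB0 h3 2
    nlinarith
  rw [le_div_iff₀ hA0]
  have e4 : (2 - 2 * (inner ℝ a (a + b) / (A * S))) * A
      = 2 * (A * S - inner ℝ a (a + b)) / S := by
    field_simp
  rw [e4, div_le_iff₀ hS0]
  exact e3

/-- the opening condition in terms of the unit vector, for the closure -/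
theorem condC_dir {N : ℕ} {U : Set (E N)} {ε R : ℝ}
    (hR : ∀ x : E N, R ≤ infDist x U → ∀ ξ ∈ closure U, dist x ξ = infDist x U →
      ∀ y ∈ U, inner ℝ (x - ξ) (y - ξ) ≤ ε * ‖x - ξ‖ * ‖y - ξ‖)
    {x ξ e : E N} (hD : Dir U x ξ e) (hx : R ≤ infDist x U) (y : E N) (hy : y ∈ closure U) :
    inner ℝ e (y - ξ) ≤ ε * ‖y - ξ‖ := by
  have hcl : IsClosed {y : E N | inner ℝ e (y - ξ) ≤ ε * ‖y - ξ‖} :=
    isClosed_le (by fun_prop) (by fun_prop)
  have hsub : U ⊆ {y : E N | inner ℝ e (y - ξ) ≤ ε * ‖y - ξ‖} := by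
    intro y hy
    have h1 := hR x hx ξ hD.mem hD.near y hy
    rw [hD.eq, real_inner_smul_left, norm_smul, hD.unit, mul_one, Real.norm_eq_abs,
      abs_of_pos hD.pos] at h1
    have h2 : infDist x U * inner ℝ e (y - ξ) ≤ infDist x U * (ε * ‖y - ξ‖) := by
      calc _ ≤ ε * infDist x U * ‖y - ξ‖ := h1
        _ = _ := by ring
    exact le_of_mul_le_mul_left h2 hD.pos
  exact hcl.closure_subset_iff.mpr hsub hy

/-- distance formula -/
theorem dist_formula {N : ℕ} (e v : E N) (he : ‖e‖ = 1) (d : ℝ) :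
    ‖d • e - v‖ ^ 2 = d ^ 2 - 2 * d * inner ℝ e v + ‖v‖ ^ 2 := by
  rw [norm_sub_sq_real, norm_smul, he, mul_one, real_inner_smul_left, Real.norm_eq_abs, sq_abs]
  ring

theorem e1 : T_E1 := by
  intro N U hU κ hκ
  obtain ⟨R, hR0, hR⟩ := hU (κ / 4) (by positivity)
  refine ⟨min 1 (κ ^ 2 / 48), by positivity, R, hR0, ?_⟩
  intro x ξ e hD hx y hy hxy
  set δ := min 1 (κ ^ 2 / 48) with hδ
  have hδ0 : 0 < δ := by positivity
  have hδ1 : δ ≤ 1 := min_le_left _ _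
  have hδ2 : δ ≤ κ ^ 2 / 48 := min_le_right _ _
  set d := infDist x U with hd
  have hd0 : 0 < d := hD.pos
  have h1 := condC_dir hR hD hx y hy
  set v := y - ξ with hv
  have h2 : dist x y = ‖d • e - v‖ := by
    rw [dist_eq_norm, hv, ← hD.eq]
    congr 1
    abel
  have h3 := dist_formula e v hD.unit d
  rw [← h2] at h3
  have h4 : dist x y ^ 2 ≤ ((1 + δ) * d) ^ 2 := pow_le_pow_left₀ dist_nonneg hxy 2
  have hv0 : 0 ≤ ‖v‖ := norm_nonneg v
  by_contra hc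
  push Not at hc
  have h5 : 2 * d * inner ℝ e v ≤ 2 * d * (κ / 4 * ‖v‖) :=
    mul_le_mul_of_nonneg_left h1 (by positivity)
  have h6 : ‖v‖ * (‖v‖ - κ / 2 * d) ≤ (2 * δ + δ ^ 2) * d ^ 2 := by nlinarith
  have h7 : 2 * δ + δ ^ 2 ≤ κ ^ 2 / 16 := by nlinarith
  have h8 : κ * d * (κ / 2 * d) < ‖v‖ * (‖v‖ - κ / 2 * d) := by
    apply mul_lt_mul'' hc (by linarith) (by positivity) (by positivity)
  have h9 : (2 * δ + δ ^ 2) * d ^ 2 ≤ κ ^ 2 / 16 * d ^ 2 :=
    mul_le_mul_of_nonneg_right h7 (by positivity)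
  have h10 : 0 < κ ^ 2 * d ^ 2 := by positivity
  nlinarith

theorem e2 (h : T_E1) : T_E2 := by
  intro N U hU κ hκ
  obtain ⟨δ1, hδ1, R, hR0, hR⟩ := h N U hU (κ / 2) (by positivity)
  refine ⟨min (δ1 / 2) (κ / 4), by positivity, R, hR0, ?_⟩
  intro x ξ e x' ξ' e' hD hD' hx hxx
  set δ := min (δ1 / 2) (κ / 4) with hδ
  have hδa : δ ≤ δ1 / 2 := min_le_left _ _
  have hδb : δ ≤ κ / 4 := min_le_right _ _
  set d := infDist x U with hd
  set d' := infDist x' U with hd'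
  have hd0 : 0 < d := hD.pos
  have h1 : d ≤ d' + dist x x' := infDist_le_infDist_add_dist
  have h2 : d' ≤ d + dist x x' := by
    rw [dist_comm]
    exact infDist_le_infDist_add_dist
  have h3 : dist x ξ' ≤ (1 + δ1) * d := by
    have := dist_triangle x x' ξ'
    rw [hD'.near] at this
    nlinarith
  have h4 := hR x ξ e hD hx ξ' hD'.mem h3
  have h5 : d • (e - e') = (x - x') + (ξ' - ξ) + (d' - d) • e' := by
    rw [smul_sub, ← hD.eq, sub_smul, ← hD'.eq]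
    abel
  have h6 : d * ‖e - e'‖ ≤ (δ + κ / 2 + δ) * d := by
    have e1 : d * ‖e - e'‖ = ‖d • (e - e')‖ := by
      rw [norm_smul, Real.norm_eq_abs, abs_of_pos hd0]
    rw [e1, h5]
    have e2 := norm_add₃_le (a := x - x') (b := ξ' - ξ) (c := (d' - d) • e')
    have e3 : ‖(d' - d) • e'‖ ≤ δ * d := by
      rw [norm_smul, hD'.unit, mul_one, Real.norm_eq_abs, abs_le]
      constructor <;> linarith
    have e4 : ‖x - x'‖ ≤ δ * d := by rw [← dist_eq_norm]; exact hxx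
    linarith
  have h7 : ‖e - e'‖ ≤ δ + κ / 2 + δ := by
    rw [mul_comm] at h6
    exact le_of_mul_le_mul_right h6 hd0
  linarith

end Pool.Agent.H36.RD
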