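import Pool.Agent.H91.RD.Targets3

/-!
# MP_609556_an, modules YEX, YCMP: the phase plane equation on `[0,b]` (helper36)
-/

open MeasureTheory Set Filter Topology Metric

namespace Pool.Agent.H36.RD

open Pool.Agent.H91.RD

theorem rcut_in {f : ℝ → ℝ} {b s : ℝ} (hs : s ∈ Icc (0 : ℝ) 1) :
    rcut f 0 b s = b⁻¹ * f (b * s) := by
  unfold rcut
  rw [if_pos hs]
  unfold resc
  simp

theorem rcut_out {f : ℝ → ℝ} {b s : ℝ} (hs : s ∉ Icc (0 : ℝ) 1) : rcut f 0 b s = 0 := by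
  unfold rcut
  rw [if_neg hs]

theorem rcut_clamp {f : ℝ → ℝ} {K b : ℝ} (hf : Lip f K) (hfb : f b = 0) (s : ℝ) :
    rcut f 0 b s = b⁻¹ * f (b * max 0 (min s 1)) := by
  by_cases hs : s ∈ Icc (0 : ℝ) 1
  · rw [rcut_in hs, min_eq_left hs.2, max_eq_right hs.1]
  · rw [rcut_out hs]
    rw [mem_Icc, not_and_or, not_le, not_le] at hs
    rcases hs with h | h
    · rw [min_eq_left (by linarith), max_eq_left (by linarith), mul_zero, hf.f0, mul_zero]
    · rw [min_eq_right h.le, max_eq_right (by norm_num), mul_one, hfb, mul_zero]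

theorem clamp_lip (s t : ℝ) : |max 0 (min s 1) - max 0 (min t 1)| ≤ |s - t| := by
  rcases le_total s t with h | h
  · rw [abs_sub_comm, abs_sub_comm s t, abs_of_nonneg (by linarith : 0 ≤ t - s), abs_le]
    constructor
    · simp only [max_def, min_def]
      split_ifs <;> linarith
    · simp only [max_def, min_def]
      split_ifs <;> linarith
  · rw [abs_of_nonneg (by linarith : 0 ≤ s - t), abs_le]
    constructor
    · simp only [max_def, min_def]
      split_ifs <;> linarith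
    · simp only [max_def, min_def]
      split_ifs <;> linarith

theorem rcut_lip {f : ℝ → ℝ} {K b : ℝ} (hf : Lip f K) (hb : 0 < b) (hfb : f b = 0) :
    Lip (rcut f 0 b) K := by
  have h0 : rcut f 0 b 0 = 0 := by
    rw [rcut_clamp hf hfb]
    simp [hf.f0]
  have h1 : rcut f 0 b 1 = 0 := by
    rw [rcut_clamp hf hfb]
    simp [hfb]
  refine ⟨hf.K0, ?_, h0, h1, ?_⟩
  · intro s t
    rw [rcut_clamp hf hfb, rcut_clamp hf hfb, ← mul_sub, abs_mul, abs_of_pos (inv_pos.mpr hb)]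
    have h := hf.lip (b * max 0 (min s 1)) (b * max 0 (min t 1))
    rw [← mul_sub, abs_mul, abs_of_pos hb] at h
    have h2 := clamp_lip s t
    rw [inv_mul_le_iff₀ hb]
    calc |f (b * max 0 (min s 1)) - f (b * max 0 (min t 1))|
        ≤ K * (b * |max 0 (min s 1) - max 0 (min t 1)|) := h
      _ ≤ K * (b * |s - t|) := by
          apply mul_le_mul_of_nonneg_left _ hf.K0.le
          exact mul_le_mul_of_nonneg_left h2 hb.le
      _ = b * (K * |s - t|) := by ring
  · intro s hs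
    exact rcut_out hs

theorem sqrt_scale {b y : ℝ} (hb : 0 < b) : √(2 * max (y / b ^ 2) 0) = √(2 * max y 0) / b := by
  have h1 : max (y / b ^ 2) 0 = max y 0 / b ^ 2 := by
    have := max_div_div_right (by positivity : 0 ≤ b ^ 2) y 0
    rwa [zero_div] at this
  rw [h1, ← mul_div_assoc, Real.sqrt_div (by positivity), Real.sqrt_sq hb.le]

/-- scaling down -/
theorem isY_of {f : ℝ → ℝ} {b c : ℝ} {y : ℝ → ℝ} (hb : 0 < b) (h : IsYb f b c y) :
    IsY (rcut f 0 b) c (fun τ => y (b * τ) / b ^ 2) := by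
  obtain ⟨h0, hc, hd⟩ := h
  refine ⟨by simp [h0], ?_, ?_⟩
  · apply ContinuousOn.div_const
    apply hc.comp (by fun_prop)
    intro τ hτ
    exact ⟨mul_nonneg hb.le hτ.1, mul_le_of_le_one_right hb.le hτ.2⟩
  · intro τ hτ
    have hm : b * τ ∈ Ioo 0 b := ⟨mul_pos hb hτ.1, by nlinarith [hτ.2]⟩
    have h1 := hd (b * τ) hm
    have h2 : HasDerivAt (fun t : ℝ => b * t) b τ := by
      simpa using (hasDerivAt_id τ).const_mul b
    have h3 := (HasDerivAt.comp τ h1 h2).div_const (b ^ 2)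
    have e : (f (b - b * τ) - c * √(2 * max (y (b * τ)) 0)) * b / b ^ 2 =
        rcut f 0 b (1 - τ) - c * √(2 * max (y (b * τ) / b ^ 2) 0) := by
      rw [rcut_in ⟨by linarith [hτ.2], by linarith [hτ.1]⟩, sqrt_scale hb,
        show b * (1 - τ) = b - b * τ by ring]
      field_simp
    rw [e] at h3
    exact h3

/-- scaling up -/
theorem isYb_of {f : ℝ → ℝ} {b c : ℝ} {y : ℝ → ℝ} (hb : 0 < b) (h : IsY (rcut f 0 b) c y) :
    IsYb f b c (fun τ => b ^ 2 * y (τ / b)) := by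
  obtain ⟨h0, hc, hd⟩ := h
  refine ⟨by simp [h0], ?_, ?_⟩
  · apply ContinuousOn.mul continuousOn_const
    apply hc.comp (by fun_prop)
    intro τ hτ
    exact ⟨div_nonneg hτ.1 hb.le, by rw [div_le_one hb]; exact hτ.2⟩
  · intro τ hτ
    have hm : τ / b ∈ Ioo (0 : ℝ) 1 := ⟨div_pos hτ.1 hb, by rw [div_lt_one hb]; exact hτ.2⟩
    have h1 := hd (τ / b) hm
    have h2 : HasDerivAt (fun t : ℝ => t / b) (1 / b) τ := (hasDerivAt_id τ).div_const b
    have h3 := (HasDerivAt.comp τ h1 h2).const_mul (b ^ 2)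
    have e : b ^ 2 * ((rcut f 0 b (1 - τ / b) - c * √(2 * max (y (τ / b)) 0)) * (1 / b)) =
        f (b - τ) - c * √(2 * max (b ^ 2 * y (τ / b)) 0) := by
      have e1 : √(2 * max (y (τ / b)) 0) = √(2 * max (b ^ 2 * y (τ / b)) 0) / b := by
        rw [← sqrt_scale hb, mul_div_cancel_left₀ _ (by positivity : b ^ 2 ≠ 0)]
      rw [rcut_in ⟨by linarith [hm.2], by linarith [hm.1]⟩, e1,
        show b * (1 - τ / b) = b - τ by field_simp]
      field_simp
    rw [e] at h3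
    exact h3

theorem yex (h : T_BS1) : T_YEX := by
  intro f K b c hf hb _ hfb hc
  obtain ⟨y, hy⟩ := h (rcut f 0 b) K c (rcut_lip hf hb hfb) hc
  exact ⟨_, isYb_of hb hy⟩

theorem ycmp (h : T_BS2) : T_YCMP := by
  intro f K b hf hb hb1 hfb c1 c2 y1 y2 hc1 hc12 h1 h2 τ hτ
  have hm : τ / b ∈ Icc (0 : ℝ) 1 := ⟨div_nonneg hτ.1 hb.le, by rw [div_le_one hb]; exact hτ.2⟩
  have h3 := h (rcut f 0 b) K (rcut_lip hf hb hfb) c1 c2 _ _ hc1 hc12 (isY_of hb h1)
    (isY_of hb h2) (τ / b) hm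
  simp only [show b * (τ / b) = τ by field_simp] at h3
  obtain ⟨h4, h5⟩ := h3
  have hb2 : 0 < b ^ 2 := by positivity
  rw [div_le_div_iff_of_pos_right hb2] at h4
  refine ⟨h4, ?_⟩
  rw [← sub_div, div_le_iff₀ hb2] at h5
  have hb3 : b ^ 2 ≤ 1 := pow_le_one₀ hb.le hb1
  have h6 : 0 ≤ (c2 - c1) * √(2 * K) := mul_nonneg (by linarith) (Real.sqrt_nonneg _)
  nlinarith

end Pool.Agent.H36.RD
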