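import Pool.Agent.H36.RD.YB

/-!
# MP_609556_an, wave 3: common lemmas on the phase plane equation (helper36)
-/

open MeasureTheory Set Filter Topology Metric

namespace Pool.Agent.H36.RD

open Pool.Agent.H91.RD

/-- a function which is nonincreasing where it is positive stays nonpositive -/
theorem le_zero_of {G : ℝ → ℝ} {a b : ℝ} (hc : ContinuousOn G (Icc a b)) (h0 : G a ≤ 0)
    (hd : ∀ τ ∈ Ioo a b, 0 < G τ → ∃ D, HasDerivAt G D τ ∧ D ≤ 0) :
    ∀ τ ∈ Icc a b, G τ ≤ 0 := by
  intro t ht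
  by_contra hcon
  push Not at hcon
  set S := {τ ∈ Icc a t | G τ ≤ 0} with hS
  have hct : ContinuousOn G (Icc a t) := hc.mono (Icc_subset_Icc_right ht.2)
  have hclosed : IsClosed S := by
    have := hct.preimage_isClosed_of_isClosed isClosed_Icc (isClosed_Iic (a := (0 : ℝ)))
    exact this
  have hne : S.Nonempty := ⟨a, ⟨le_rfl, ht.1⟩, h0⟩
  have hcomp : IsCompact S := isCompact_Icc.of_isClosed_subset hclosed (fun x hx => hx.1)
  have hmem := hcomp.sSup_mem hne
  set s := sSup S with hs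
  have hst : s < t := by
    rcases hmem.1.2.lt_or_eq with h | h
    · exact h
    · rw [h] at hmem
      exact absurd hmem.2 (not_le.mpr hcon)
  have hpos : ∀ τ ∈ Ioo s t, 0 < G τ := by
    intro τ hτ
    by_contra hn
    push Not at hn
    have : τ ≤ s := le_csSup hcomp.bddAbove ⟨⟨hmem.1.1.trans hτ.1.le, hτ.2.le⟩, hn⟩
    linarith [hτ.1]
  have hanti : AntitoneOn G (Icc s t) := by
    apply antitoneOn_of_deriv_nonpos (convex_Icc s t)
    · exact hct.mono (Icc_subset_Icc_left hmem.1.1)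
    · intro τ hτ
      rw [interior_Icc] at hτ
      obtain ⟨D, hD, _⟩ := hd τ ⟨lt_of_le_of_lt hmem.1.1 hτ.1, lt_of_lt_of_le hτ.2 ht.2⟩ (hpos τ hτ)
      exact hD.differentiableAt.differentiableWithinAt
    · intro τ hτ
      rw [interior_Icc] at hτ
      obtain ⟨D, hD, hD0⟩ := hd τ ⟨lt_of_le_of_lt hmem.1.1 hτ.1, lt_of_lt_of_le hτ.2 ht.2⟩
        (hpos τ hτ)
      rw [hD.deriv]
      exact hD0
  have := hanti ⟨le_rfl, hst.le⟩ ⟨hst.le, le_rfl⟩ hst.le
  linarith [hmem.2]

/-- positivity near `0` of all solutions -/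
theorem pos_near {f : ℝ → ℝ} {b b' c : ℝ} {y : ℝ → ℝ} (hb' : 0 ≤ b')
    (hf : ∀ s ∈ Ioo b' b, 0 < f s) (hy : IsYb f b c y) : ∀ τ ∈ Ioo 0 (b - b'), 0 < y τ := by
  obtain ⟨h0, hc, hd⟩ := hy
  have hnn : ∀ τ ∈ Ioo 0 (b - b'), 0 ≤ y τ := by
    intro t ht
    have h1 := le_zero_of (G := fun τ => -y τ) (a := 0) (b := t)
      ((hc.mono (Icc_subset_Icc_right (by linarith [ht.2]))).neg) (by simp [h0]) (by
        intro τ hτ hpos
        have h2 := (hd τ ⟨hτ.1, by linarith [hτ.2, ht.2]⟩).neg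
        refine ⟨_, h2, ?_⟩
        have h3 : max (y τ) 0 = 0 := max_eq_right (by linarith)
        have h4 := hf (b - τ) ⟨by linarith [hτ.2, ht.2], by linarith [hτ.1]⟩
        rw [h3, mul_zero, Real.sqrt_zero, mul_zero]
        linarith) t ⟨ht.1.le, le_rfl⟩
    linarith
  intro t ht
  rcases (hnn t ht).lt_or_eq with h | h
  · exact h
  · exfalso
    have hmin : IsLocalMin y t := by
      filter_upwards [isOpen_Ioo.mem_nhds ht] with τ hτ
      rw [← h]
      exact hnn τ hτ
    have h1 := hmin.hasDerivAt_eq_zero (hd t ⟨ht.1, by linarith [ht.2]⟩)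
    rw [← h] at h1
    have h4 := hf (b - t) ⟨by linarith [ht.2], by linarith [ht.1]⟩
    simp at h1
    linarith

theorem lip_cont {f : ℝ → ℝ} {K : ℝ} (hf : Lip f K) : Continuous f := by
  have : LipschitzWith (Real.toNNReal K) f := by
    apply LipschitzWith.of_dist_le_mul
    intro a b
    rw [Real.dist_eq, Real.dist_eq, Real.coe_toNNReal K hf.K0.le]
    exact hf.lip a b
  exact this.continuous

/-- fundamental theorem for a solution -/
theorem ftc {f : ℝ → ℝ} {K b c : ℝ} {y : ℝ → ℝ} (hf : Lip f K) (hy : IsYb f b c y) {s t : ℝ}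
    (hs : 0 ≤ s) (hst : s ≤ t) (htb : t ≤ b) :
    y t - y s = ∫ τ in s..t, (f (b - τ) - c * √(2 * max (y τ) 0)) := by
  obtain ⟨h0, hc, hd⟩ := hy
  have hcst : ContinuousOn y (Icc s t) := hc.mono (Icc_subset_Icc hs htb)
  have hcont : ContinuousOn (fun τ => f (b - τ) - c * √(2 * max (y τ) 0)) (Icc s t) := by
    apply ContinuousOn.sub
    · exact ((lip_cont hf).comp (by fun_prop)).continuousOn
    · apply ContinuousOn.mul continuousOn_const
      apply Real.continuous_sqrt.comp_continuousOn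
      apply ContinuousOn.mul continuousOn_const
      exact hcst.sup continuousOn_const
  symm
  apply intervalIntegral.integral_eq_sub_of_hasDerivAt_of_le hst hcst
  · intro τ hτ
    exact hd τ ⟨by linarith [hτ.1], by linarith [hτ.2]⟩
  · apply ContinuousOn.intervalIntegrable
    rw [uIcc_of_le hst]
    exact hcont

end Pool.Agent.H36.RD
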